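import Pool.Agent.helper24.CG.Spec

/-!
# Row cg:HVY (MP_ba8873_co)
-/

set_option autoImplicit false

namespace Pool.Agent.helper24.CG

open Finset

theorem HVY : HVY_stmt := by
  intro N n0 𝓖 ν τ W hτ hτ1 hν hW hn0
  have key : ∀ n : ℕ, (∃ X : Finset (Fin N), X.card ≤ n ∧
      ∀ v, ∑ F ∈ 𝓖.filter (fun F => Disjoint X F ∧ v ∈ F), ν F ≤
        τ * ∑ F ∈ 𝓖.filter (fun F => Disjoint X F), ν F) ∨
      (∃ X : Finset (Fin N), X.card ≤ n ∧
        ∑ F ∈ 𝓖.filter (fun F => Disjoint X F), ν F ≤ (1 - τ) ^ n * W) := by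
    intro n
    induction n with
    | zero =>
      right
      refine ⟨∅, by simp, ?_⟩
      have e : 𝓖.filter (fun F => Disjoint (∅ : Finset (Fin N)) F) = 𝓖 :=
        Finset.filter_true_of_mem fun F _ => Finset.disjoint_empty_left F
      rw [e, pow_zero, one_mul]
      exact hW
    | succ n ih =>
      rcases ih with ⟨X, hX, hg⟩ | ⟨X, hX, hs⟩
      · exact Or.inl ⟨X, hX.trans (Nat.le_succ n), hg⟩
      · by_cases hgood : ∀ v, ∑ F ∈ 𝓖.filter (fun F => Disjoint X F ∧ v ∈ F), ν F ≤
            τ * ∑ F ∈ 𝓖.filter (fun F => Disjoint X F), ν F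
        · exact Or.inl ⟨X, hX.trans (Nat.le_succ n), hgood⟩
        · right
          rw [not_forall] at hgood
          obtain ⟨v, hv⟩ := hgood
          rw [not_le] at hv
          refine ⟨insert v X, (Finset.card_insert_le v X).trans (Nat.succ_le_succ hX), ?_⟩
          have hsplit : ∑ F ∈ 𝓖.filter (fun F => Disjoint X F), ν F
              = ∑ F ∈ 𝓖.filter (fun F => Disjoint X F ∧ v ∈ F), ν F
                + ∑ F ∈ 𝓖.filter (fun F => Disjoint (insert v X) F), ν F := by
            rw [← Finset.sum_filter_add_sum_filter_not (𝓖.filter (fun F => Disjoint X F))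
              (fun F => v ∈ F), Finset.filter_filter, Finset.filter_filter]
            congr 1
            refine Finset.sum_congr ?_ fun _ _ => rfl
            ext F
            rw [Finset.mem_filter, Finset.mem_filter, Finset.disjoint_insert_left]
            constructor
            · rintro ⟨h1, h2, h3⟩
              exact ⟨h1, h3, h2⟩
            · rintro ⟨h1, h2, h3⟩
              exact ⟨h1, h3, h2⟩
          have h1 : ∑ F ∈ 𝓖.filter (fun F => Disjoint (insert v X) F), ν F
              ≤ (1 - τ) * ∑ F ∈ 𝓖.filter (fun F => Disjoint X F), ν F := by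
            linarith
          have h2 : (1 - τ) * ∑ F ∈ 𝓖.filter (fun F => Disjoint X F), ν F
              ≤ (1 - τ) * ((1 - τ) ^ n * W) :=
            mul_le_mul_of_nonneg_left hs (by linarith)
          have h3 : (1 - τ) * ((1 - τ) ^ n * W) = (1 - τ) ^ (n + 1) * W := by ring
          linarith
  rcases key n0 with h | ⟨X, hX, hs⟩
  · exact h
  · refine ⟨X, hX, ?_⟩
    have hempty : 𝓖.filter (fun F => Disjoint X F) = ∅ := by
      by_contra hne
      obtain ⟨F, hF⟩ := Finset.nonempty_iff_ne_empty.mpr hne
      have h1 : ν F ≤ ∑ F ∈ 𝓖.filter (fun F => Disjoint X F), ν F := by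
        refine Finset.single_le_sum (f := ν) (fun G hG => ?_) hF
        exact zero_le_one.trans (hν G (Finset.mem_filter.mp hG).1)
      have h2 := hν F (Finset.mem_filter.mp hF).1
      linarith
    intro v
    have hempty2 : 𝓖.filter (fun F => Disjoint X F ∧ v ∈ F) = ∅ := by
      rw [Finset.eq_empty_iff_forall_notMem]
      intro F hF
      rw [Finset.mem_filter] at hF
      have : F ∈ 𝓖.filter (fun F => Disjoint X F) :=
        Finset.mem_filter.mpr ⟨hF.1, hF.2.1⟩
      rw [hempty] at this
      exact absurd this (Finset.notMem_empty F)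
    rw [hempty, hempty2, Finset.sum_empty, mul_zero]

end Pool.Agent.helper24.CG
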